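import Pool.Agent.R629.NF.Conc5

/-!
# MP_cab3fc_nt: Serre's conjecture for a totally real field and values on the edge

Let `F` be a totally real number field which is Galois over `ℚ`, `Ω` an algebraic closure of `ℚ`
containing `F`, `G` the absolute Galois group of `F` and `k` an algebraic closure of `𝔽_p`; let
`θ : k → ℂ` be injective with `|θ(z)| = 1` for `z ≠ 0`, for instance the Teichmüller lift followed by an
embedding of the roots of unity in `ℂ`.  The Euler product of `ρ : G → GL_2(k)` has the factor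
`∏ (1 - θ(z) q_v^{-s})⁻¹` at `v`, where `z` runs over the eigenvalues of `ρ` on a Frobenius element at
`v`: it is the Artin `L`-function of the Brauer lift of `ρ`, up to finitely many factors.

Let `H_j`, `j ∈ J`, be the modular totally odd irreducible representations and `R_i`, `i ∈ I`,
representatives of the classes of all totally odd irreducible representations modulo isomorphism and
conjugation by the absolute Galois group of `ℚ`.  The theorem: the boundary value `l_i(t)` on
`Re s = 1` of the Euler product of `R_i` is algebraic over the field generated by countably many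
constants, the boundary values of the modular representations, `t` and the `p^{-it}` if `R_i` is
modular, and transcendental if it is not, for almost all `t`; the `l_i(t)` of the `R_i` which are not
modular are algebraically independent over this field.  So Serre's conjecture for `F` and `p` is an
assertion on the transcendence degree of the field generated by the `l_i(t)`.  Chebotarev's theorem is
not assumed: it is proved in the starting files, and extended to absolute Galois groups in the files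
imported here.
-/

set_option autoImplicit false

namespace Pool.Agent.Results.MP_cab3fc_nt.SerreOnTheEdge

open MeasureTheory NumberField IsDedekindDomain
open Pool.Agent.R629.NF
open Pool.Agent.R629.SP

/-- `ρ` is continuous, irreducible and totally odd: the determinant is `-1` on all complex
conjugations, that is all `g` with `ι(g x) = conj ι(x)` for an embedding `ι : Ω → ℂ`. -/
def IsSerre {F Ω k : Type} [Field F] [NumberField F] [IsGalois ℚ F] [Field Ω] [CharZero Ω]
    [IsAlgClosure ℚ Ω] [Algebra F Ω] [Field k] (ρ : GalOf F Ω →* GL (Fin 2) k) : Prop :=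
  IsSmooth ρ ∧ (rep ρ).IsIrreducible ∧
    ∀ g : GalOf F Ω, (∃ ι : Ω →+* ℂ, ∀ x, ι ((g : Gal(Ω/ℚ)) x) = (starRingEnd ℂ) (ι x)) →
      (ρ g).val.det = -1

/-- **Serre's conjecture for a totally real field and values on the edge.** -/
theorem result {F Ω : Type} [Field F] [NumberField F] [IsGalois ℚ F] [NumberField.IsTotallyReal F]
    [Field Ω] [CharZero Ω] [IsAlgClosure ℚ Ω] [Algebra F Ω]
    {p : ℕ} [Fact p.Prime] {k : Type} [Field k] [IsAlgClosed k] [CharP k p]
    {S₀ : Finset ℕ} (hS₀ : Unram F S₀)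
    {Φ : HeightOneSpectrum (𝓞 F) → GalOf F Ω} (hΦ : ∀ v, IsFrobAt Ω v (Φ v : Gal(Ω/ℚ)))
    {θ : k → ℂ} (hθ : Function.Injective θ) (hθ1 : ∀ z : k, z ≠ 0 → ‖θ z‖ = 1)
    {J : Type} [Countable J] {H : J → GalOf F Ω →* GL (Fin 2) k} (hH : ∀ j, IsSerre (H j))
    (hstab : ∀ j (s : Gal(Ω/ℚ)), IsIn H ((H j).comp (conjBy F s)))
    {I : Type} [Countable I] {R : I → GalOf F Ω →* GL (Fin 2) k} (hR : ∀ i, IsSerre (R i))
    (hnc : ∀ i i', i' ≠ i → ¬ IsConjugate (conjBy (Ω := Ω) F) (R i) (R i'))
    (hall : ∀ ρ : GalOf F Ω →* GL (Fin 2) k, IsSerre ρ →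
      ∃ i, IsConjugate (conjBy (Ω := Ω) F) ρ (R i))
    {SI : I → Finset ℕ} (hSI : ∀ i, S₀ ⊆ SI i) {SJ : J → Finset ℕ} (hSJ : ∀ j, S₀ ⊆ SJ j) :
    ((∀ i, ∃ l : ℝ → ℂ, IsEdgeOf (SI i) 2 (frobLift θ Φ (R i)) 0 l) ∧
      ∀ j, ∃ l : ℝ → ℂ, IsEdgeOf (SJ j) 2 (frobLift θ Φ (H j)) 0 l) ∧
    ∀ (l : I → ℝ → ℂ) (lH : J → ℝ → ℂ),
      (∀ i, IsEdgeOf (SI i) 2 (frobLift θ Φ (R i)) 0 (l i)) →
      (∀ j, IsEdgeOf (SJ j) 2 (frobLift θ Φ (H j)) 0 (lH j)) →
      (∀ i, (IsIn H (R i) ↔ DependentOn (l i) lH) ∧ (¬ IsIn H (R i) ↔ IndependentOf (l i) lH)) ∧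
      (∀ k' : Subfield ℂ, (k' : Set ℂ).Countable → ∀ᵐ t : ℝ, AlgebraicIndependent
        (IntermediateField.adjoin k' (valSet (fun j => lH j t) t))
        fun i : {i : I // ¬ IsIn H (R i)} => l i t) ∧
      ((∀ ρ : GalOf F Ω →* GL (Fin 2) k, IsSerre ρ → IsIn H ρ) ↔
        ∃ k' : Subfield ℂ, (k' : Set ℂ).Countable ∧ ∀ᵐ t : ℝ, ∀ i,
          IsAlgebraic (IntermediateField.adjoin k' (valSet (fun j => lH j t) t)) (l i t)) := by
  refine ⟨⟨fun i => exists_edgeOf_le (unram_mono hS₀ (hSI i)) (frobLift_sys hθ1 Φ (R i) _),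
    fun j => exists_edgeOf_le (unram_mono hS₀ (hSJ j)) (frobLift_sys hθ1 Φ (H j) _)⟩,
    fun l lH hl hlH => ?_⟩
  obtain ⟨h1, h2⟩ := main_conc hS₀ hΦ hθ hθ1 (fun i => (hR i).1) (fun i => (hR i).2.1)
    (fun j => (hH j).1) (fun j => (hH j).2.1) hstab hSI hSJ hl hlH
  have h3 : ∀ i, IsIn H (R i) ↔ DependentOn (l i) lH := fun i => (h1 i).2.1
  refine ⟨fun i => ⟨h3 i, ?_⟩, h2 hnc, ?_⟩
  · rw [h3 i]
    exact ⟨fun h => (h1 i).2.2.resolve_left h, fun h h' => not_indep h' h⟩
  · rw [← dependent_all]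
    constructor
    · intro h i
      exact (h3 i).1 (h (R i) (hR i))
    · intro h ρ hρ
      obtain ⟨i, hi⟩ := hall ρ hρ
      exact isIn_conj hstab hi ((h3 i).2 (h i))

end Pool.Agent.Results.MP_cab3fc_nt.SerreOnTheEdge
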